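import Pool.Agent.H561.C4.B9

set_option autoImplicit false

/-! All scales from `m ^ (1 / 4 + δ)` to `m`. -/

namespace Pool.Agent.H561.C4

open Finset
open Pool.Agent.H561.CM (ev_ll)
open Pool.Agent.H373R2.T7
open Pool.Agent.H560R3.GB (sing)
open Pool.Agent.W93.GB
open Pool.Agent.W93.PG (cnt WinP)
open Pool.Agent.R460.GH (dist)

/-- the numbers of the pairs in all windows `(u, v]` with `m ^ (1 / 4 + δ) ≤ v ≤ m` are as predicted -/
def HoldsA (ε δ : ℝ) (W m : ℕ) : Prop := ∀ u v : ℝ, 0 ≤ u → (m : ℝ) ^ (1 / 4 + δ) ≤ v → v ≤ m →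
  v / Real.log m ^ W ≤ v - u →
  |(dist m u v : ℝ) - sing m * (v - u) / (Real.log v * Real.log m)| ≤
    ε * (sing m * (v - u) / (Real.log v * Real.log m))

theorem holdsA_of (ε δ : ℝ) (hε : 0 < ε) (hε1 : ε ≤ 1 / 2) (e W D : ℕ) (hδ : (4 / e : ℝ) ≤ δ) : ∃ m₀ : ℕ, ∀ m : ℕ, m₀ ≤ m →
    HoldsS ε e W D m → WinP (ε / 4) (D + W + 1) m → HoldsA ε δ W m := by
  obtain ⟨m1, h1⟩ := ev_L' (100 + 100 / ε)
  obtain ⟨m2, h2⟩ := ev_log' (D + W + 3) (100 / ε)
  obtain ⟨m3, h3⟩ := ev_ll D (ε / 8) (by positivity)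
  refine ⟨m1 + m2 + m3 + 16, fun m hm hS hWin u v hu hv hvm huv => ?_⟩
  by_cases hsm : v * Real.log m ^ D ≤ m
  · refine hS u v hu (le_trans ?_ hv) hsm huv
    apply Real.rpow_le_rpow_of_exponent_le
    · have : 1 ≤ m := by omega
      exact_mod_cast this
    · linarith
  push Not at hsm
  have hL := h1 m (by omega)
  have a2 := h2 m (by omega)
  have a3 := h3 m (by omega)
  have hm16 : (16 : ℝ) ≤ m := by exact_mod_cast (by omega : 16 ≤ m)
  have hm0 : (0 : ℝ) < m := by linarith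
  have hss : √(m : ℝ) * √(m : ℝ) = m := Real.mul_self_sqrt hm0.le
  have hs1 : 1 ≤ √(m : ℝ) := by
    rw [Real.one_le_sqrt]
    linarith
  have hsing := one_le_sing m
  have hcd := Pool.Agent.R460.GH.cnt_le_dist m u v hu hvm
  have hdc := Pool.Agent.R460.GH.dist_le_cnt m u v hu
  unfold WinP at hWin
  obtain ⟨S, hSd⟩ : ∃ S, S = sing m := ⟨_, rfl⟩
  obtain ⟨ℓ, hℓ⟩ : ∃ ℓ, ℓ = Real.log (m : ℝ) := ⟨_, rfl⟩
  rw [← hSd] at hsing hWin ⊢
  rw [← hℓ] at hsm hL a2 a3 huv hWin ⊢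
  have hie : 0 < 1 / ε := by positivity
  have h100ε : 0 < 100 / ε := by positivity
  have hℓ100 : 100 ≤ ℓ := by linarith
  have hℓ1 : 1 ≤ ℓ := by linarith
  have hℓ0 : 0 < ℓ := by linarith
  have hD0 : 0 < ℓ ^ D := by positivity
  have hv0 : 0 < v := by
    by_contra hcon
    push Not at hcon
    have : v * ℓ ^ D ≤ 0 := mul_nonpos_of_nonpos_of_nonneg hcon hD0.le
    linarith
  obtain ⟨h, hh⟩ : ∃ h, h = v - u := ⟨_, rfl⟩
  rw [← hh] at huv ⊢
  have hhbig : (m : ℝ) / ℓ ^ (D + W) ≤ h := by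
    refine le_trans ?_ huv
    rw [div_le_div_iff₀ (by positivity) (by positivity), pow_add]
    have : 0 < ℓ ^ W := by positivity
    nlinarith
  have hmbig : 100 / ε * ℓ ^ 3 ≤ (m : ℝ) / ℓ ^ (D + W) := by
    rw [le_div_iff₀ (by positivity)]
    calc 100 / ε * ℓ ^ 3 * ℓ ^ (D + W) = 100 / ε * ℓ ^ (D + W + 3) := by ring
      _ ≤ √(m : ℝ) := a2
      _ ≤ √(m : ℝ) * √(m : ℝ) := le_mul_of_one_le_left (by positivity) hs1
      _ = m := hss
  have hh0 : 0 < h := by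
    have : 0 < 100 / ε * ℓ ^ 3 := by positivity
    linarith
  have hℓ3 : 1 ≤ ℓ ^ 3 := one_le_pow₀ hℓ1
  have hh2 : 2 ≤ h := by
    have e1 : (100 : ℝ) ≤ 100 / ε := by
      rw [le_div_iff₀ hε]
      linarith
    have : 100 / ε * 1 ≤ 100 / ε * ℓ ^ 3 := mul_le_mul_of_nonneg_left hℓ3 h100ε.le
    linarith
  -- the natural end points
  obtain ⟨a, ha⟩ : ∃ a, a = ⌊u⌋₊ := ⟨_, rfl⟩
  obtain ⟨b, hb⟩ : ∃ b, b = ⌊v⌋₊ := ⟨_, rfl⟩
  rw [← ha, ← hb] at hcd hdc
  have ha1 : (a : ℝ) ≤ u := by rw [ha]; exact Nat.floor_le hu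
  have ha2 : u < a + 1 := by rw [ha]; exact Nat.lt_floor_add_one u
  have hb1 : (b : ℝ) ≤ v := by rw [hb]; exact Nat.floor_le hv0.le
  have hb2 : v < b + 1 := by rw [hb]; exact Nat.lt_floor_add_one v
  have hab : a < b := by
    have : (a : ℝ) < b := by linarith
    exact_mod_cast this
  have hbm : b ≤ m := by
    have : (b : ℝ) ≤ m := hb1.trans hvm
    exact_mod_cast this
  have hk1 : (b : ℝ) - a ≤ h + 1 := by linarith
  have hk2 : h - 1 ≤ (b : ℝ) - a := by linarith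
  have hW := hWin a b hab hbm (by
    calc (m : ℝ) / ℓ ^ (D + W + 1) = (m : ℝ) / ℓ ^ (D + W) / ℓ := by
          rw [pow_succ]
          field_simp
      _ ≤ h / 2 := by
          gcongr
          linarith
      _ ≤ h - 1 := by linarith
      _ ≤ _ := hk2)
  -- the logarithm
  have hlogv2 : Real.log v ≤ ℓ := by
    rw [hℓ]
    exact Real.log_le_log hv0 hvm
  have hlogv1 : (1 - ε / 8) * ℓ ≤ Real.log v := by
    have e1 : Real.log m ≤ Real.log (v * ℓ ^ D) := Real.log_le_log hm0 hsm.le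
    rw [Real.log_mul hv0.ne' hD0.ne', Real.log_pow, ← hℓ] at e1
    linarith
  have hε8 : 0 < 1 - ε / 8 := by linarith
  have hlogv0 : 0 < Real.log v := lt_of_lt_of_le (by positivity) hlogv1
  obtain ⟨M, hM⟩ : ∃ M, M = S * h / (Real.log v * ℓ) := ⟨_, rfl⟩
  obtain ⟨M', hM'⟩ : ∃ M', M' = S * h / ℓ ^ 2 := ⟨_, rfl⟩
  rw [← hM]
  have hSh : 0 < S * h := by positivity
  have c1 : M' ≤ M := by
    rw [hM, hM']
    apply div_le_div_of_nonneg_left hSh.le (by positivity)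
    rw [sq]
    exact mul_le_mul_of_nonneg_right hlogv2 hℓ0.le
  have c2 : (1 - ε / 8) * M ≤ M' := by
    rw [hM, hM', mul_div_assoc', div_le_div_iff₀ (by positivity) (by positivity)]
    calc (1 - ε / 8) * (S * h) * ℓ ^ 2 = (S * h) * (((1 - ε / 8) * ℓ) * ℓ) := by ring
      _ ≤ (S * h) * (Real.log v * ℓ) := by gcongr
  have hM0 : 0 < M := by rw [hM]; positivity
  have c3 : S * ((b : ℝ) - a) / ℓ ^ 2 ≤ M' + S / ℓ ^ 2 := by
    rw [hM', ← add_div]
    apply div_le_div_of_nonneg_right _ (by positivity)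
    have := mul_le_mul_of_nonneg_left hk1 (by linarith : 0 ≤ S)
    linarith
  have c4 : M' - S / ℓ ^ 2 ≤ S * ((b : ℝ) - a) / ℓ ^ 2 := by
    rw [hM', ← sub_div]
    apply div_le_div_of_nonneg_right _ (by positivity)
    have := mul_le_mul_of_nonneg_left hk2 (by linarith : 0 ≤ S)
    linarith
  have c5 : S / ℓ ^ 2 ≤ ε / 16 * M' := by
    rw [hM', mul_div_assoc']
    apply div_le_div_of_nonneg_right _ (by positivity)
    have e1 : 100 / ε ≤ h := by
      have : 100 / ε * 1 ≤ 100 / ε * ℓ ^ 3 := mul_le_mul_of_nonneg_left hℓ3 h100ε.le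
      linarith
    rw [div_le_iff₀ hε] at e1
    nlinarith
  have c6 : 1 ≤ ε / 16 * M := by
    have e1 : 100 / ε ≤ M' := by
      rw [hM', le_div_iff₀ (by positivity)]
      calc 100 / ε * ℓ ^ 2 ≤ 100 / ε * ℓ ^ 3 := by
            apply mul_le_mul_of_nonneg_left _ h100ε.le
            exact pow_le_pow_right₀ hℓ1 (by norm_num)
        _ ≤ h := hmbig.trans hhbig
        _ ≤ S * h := le_mul_of_one_le_left hh0.le hsing
    rw [div_le_iff₀ hε] at e1
    nlinarith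
  have hd1 : (cnt m a b : ℝ) ≤ dist m u v + 1 := by exact_mod_cast hcd
  have hd2 : (dist m u v : ℝ) ≤ cnt m a b := by exact_mod_cast hdc
  rw [abs_le] at hW ⊢
  obtain ⟨w1, w2⟩ := hW
  have hM'0 : 0 < M' := by rw [hM']; positivity
  have q1 : ε * (ε * M') ≤ ε * (1 / 2 * M') := by
    apply mul_le_mul_of_nonneg_left _ hε.le
    exact mul_le_mul_of_nonneg_right hε1 hM'0.le
  have q2 : ε / 4 * (S * ((b : ℝ) - a) / ℓ ^ 2) ≤ ε / 4 * (M' + ε / 16 * M') := by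
    apply mul_le_mul_of_nonneg_left _ (by positivity)
    linarith
  have q3 : ε * M' ≤ ε * M := mul_le_mul_of_nonneg_left c1 hε.le
  constructor <;> nlinarith

open Classical in
/-- **Almost all even numbers, all scales.** -/
theorem allA (ε γ : ℝ) (hε : 0 < ε) (hγ : 0 < γ) (W A : ℕ) : ∃ X₀ : ℕ, ∀ X : ℕ, X₀ ≤ X →
    (((Icc 1 X).filter (fun m : ℕ => 2 ∣ m ∧ ¬ HoldsA ε γ W m)).card : ℝ) ≤ X / Real.log X ^ A := by
  obtain ⟨δ, hδ⟩ : ∃ δ, δ = min ε (1 / 2) := ⟨_, rfl⟩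
  have hδ0 : 0 < δ := by rw [hδ]; positivity
  have hδ1 : δ ≤ 1 / 2 := by rw [hδ]; exact min_le_right _ _
  have hδε : δ ≤ ε := by rw [hδ]; exact min_le_left _ _
  obtain ⟨e, he⟩ : ∃ e : ℕ, e = max 5 ⌈4 / γ⌉₊ := ⟨_, rfl⟩
  have he5 : 5 ≤ e := by rw [he]; exact le_max_left _ _
  have heγ : (4 / e : ℝ) ≤ γ := by
    have h1 : 4 / γ ≤ e := by
      rw [he]
      push_cast
      exact (Nat.le_ceil _).trans (le_max_right _ _)
    have h2 : (0 : ℝ) < e := by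
      have : 0 < e := by omega
      exact_mod_cast this
    rw [div_le_iff₀ h2]
    rw [div_le_iff₀ hγ] at h1
    linarith
  obtain ⟨D, X1, h1⟩ := allS δ hδ0 e W (A + 1) he5
  obtain ⟨m0, h2⟩ := holdsA_of δ γ hδ0 hδ1 e W D heγ
  obtain ⟨x0, h3⟩ := Pool.Agent.R460.GH.class_asymp (fun m => WinP (δ / 4) (D + W + 1) m) (δ / 4) (by positivity)
    (D + W + 1) ⟨0, fun n _ _ h => h⟩ (1 / 3) (by norm_num) (A + 1) 0
  obtain ⟨X4, h4⟩ := ev_L' 4
  obtain ⟨X5, h5⟩ := ev_log' A 2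
  refine ⟨X1 + ⌈x0⌉₊ + X4 + X5 + (m0 + 2) ^ 2 + 16, fun X hX => ?_⟩
  have hX0 : (0 : ℝ) < X := by exact_mod_cast (by omega : 0 < X)
  have hXx : x0 ≤ (X : ℝ) := (Nat.le_ceil x0).trans (by exact_mod_cast (by omega : ⌈x0⌉₊ ≤ X))
  have a1 := h1 X (by omega)
  obtain ⟨a2, a3⟩ := h3 X hXx 1 le_rfl (by
    push_cast
    apply Real.one_le_rpow
    · exact_mod_cast (by omega : 1 ≤ X)
    · norm_num) 0 (by
    push_cast
    simp)
  have a4 := h4 X (by omega)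
  have a5 := h5 X (by omega)
  have hss : √(X : ℝ) * √(X : ℝ) = X := Real.mul_self_sqrt hX0.le
  have hs0 : 0 < √(X : ℝ) := Real.sqrt_pos.2 hX0
  obtain ⟨F, hF⟩ : ∃ F : Set ℕ, F = {n : ℕ | 0 < n ∧ (n : ℝ) ≤ X ∧ 2 ∣ n ∧ (n : ℤ) ≡ 0 [ZMOD ((1 : ℕ) : ℤ)] ∧
      ¬ WinP (δ / 4) (D + W + 1) n} := ⟨_, rfl⟩
  rw [← hF] at a2 a3
  have hsub : (Icc 1 X).filter (fun m : ℕ => 2 ∣ m ∧ ¬ HoldsA ε γ W m) ⊆
      range (m0 + 2) ∪ ((Icc 1 X).filter (fun m : ℕ => 2 ∣ m ∧ ¬ HoldsS δ e W D m) ∪ a2.toFinset) := by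
    intro m hm
    rw [mem_filter, mem_Icc] at hm
    obtain ⟨⟨hm1, hmX⟩, h2m, hnH⟩ := hm
    rw [mem_union, mem_union, mem_range, mem_filter, mem_Icc, Set.Finite.mem_toFinset]
    by_cases hsm : m < m0 + 2
    · left; exact hsm
    right
    by_cases hHS : HoldsS δ e W D m
    · right
      rw [hF]
      refine ⟨by omega, by exact_mod_cast hmX, h2m, by simp [Int.modEq_one], fun hWin => hnH ?_⟩
      have hA := h2 m (by omega) hHS hWin
      intro u v hu hv hvm huv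
      refine (hA u v hu hv hvm huv).trans ?_
      have hs := one_le_sing m
      have hL : 0 ≤ Real.log (m : ℝ) := Real.log_natCast_nonneg m
      have hm1' : (1 : ℝ) ≤ m := by exact_mod_cast hm1
      have hv1 : 1 ≤ v := (Real.one_le_rpow hm1' (by positivity)).trans hv
      have h1 : 0 ≤ v - u := (div_nonneg (by linarith) (pow_nonneg hL W)).trans huv
      apply mul_le_mul_of_nonneg_right hδε
      apply div_nonneg
      · exact mul_nonneg (by linarith) h1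
      · exact mul_nonneg (Real.log_nonneg hv1) hL
    · left
      exact ⟨⟨hm1, hmX⟩, h2m, hHS⟩
  have hc : (((Icc 1 X).filter (fun m : ℕ => 2 ∣ m ∧ ¬ HoldsA ε γ W m)).card : ℝ) ≤
      √(X : ℝ) + (X / Real.log X ^ (A + 1) + X / Real.log X ^ (A + 1)) := by
    have e1 := (card_le_card hsub).trans ((card_union_le _ _).trans (add_le_add_right (card_union_le _ _) _))
    rw [card_range, ← Set.ncard_eq_toFinset_card _ a2] at e1
    have e2 : (((Icc 1 X).filter (fun m : ℕ => 2 ∣ m ∧ ¬ HoldsA ε γ W m)).card : ℝ) ≤ ((m0 + 2 : ℕ) : ℝ) +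
        (((Icc 1 X).filter (fun m : ℕ => 2 ∣ m ∧ ¬ HoldsS δ e W D m)).card + (F.ncard : ℝ)) := by
      exact_mod_cast e1
    have e3 : ((m0 + 2 : ℕ) : ℝ) ≤ √(X : ℝ) := by
      apply Real.le_sqrt_of_sq_le
      have : (m0 + 2) ^ 2 ≤ X := by omega
      exact_mod_cast this
    have e4 : (F.ncard : ℝ) ≤ X / Real.log X ^ (A + 1) := by
      refine a3.trans (le_of_eq ?_)
      push_cast
      rw [one_mul]
    linarith
  refine hc.trans ?_
  obtain ⟨L, hLd⟩ : ∃ L, L = Real.log (X : ℝ) := ⟨_, rfl⟩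
  rw [← hLd] at a4 a5 ⊢
  have hL0 : 0 < L := by linarith
  have hLA : 0 < L ^ A := by positivity
  have e1 : √(X : ℝ) ≤ X / L ^ A / 2 := by
    rw [le_div_iff₀ (by norm_num), le_div_iff₀ (by positivity)]
    calc √(X : ℝ) * 2 * L ^ A = √(X : ℝ) * (2 * L ^ A) := by ring
      _ ≤ √(X : ℝ) * √(X : ℝ) := by gcongr
      _ = X := hss
  have e2 : (X : ℝ) / L ^ (A + 1) + X / L ^ (A + 1) ≤ X / L ^ A / 2 := by
    calc (X : ℝ) / L ^ (A + 1) + X / L ^ (A + 1) = (4 / L) * (X / L ^ A / 2) := by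
          rw [pow_succ L A]
          field_simp
          ring
      _ ≤ 1 * (X / L ^ A / 2) := by
          apply mul_le_mul_of_nonneg_right _ (by positivity)
          rw [div_le_one hL0]
          exact a4
      _ = _ := one_mul _
  linarith

end Pool.Agent.H561.C4
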