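import Pool.Agent.H561.C4.B5
import Pool.Agent.H561.CM.A6

set_option autoImplicit false

/-! The exceptional set. -/

namespace Pool.Agent.H561.C4

open Finset
open Pool.Agent.H561.CM (RR)
open Pool.Agent.H373R2.T7
open Pool.Agent.H560R3.GB (sing)
open Pool.Agent.helper24_UT (Ed)

/-- good numbers: at all scales `P = 2 ^ j` between `X ^ (1 / 4 + 3 / e)` and `X / (log X) ^ D` -/
def GoodS (e D V X m : ℕ) : Prop := ∀ j : ℕ, (X : ℝ) ^ (1 / 4 + 3 / e : ℝ) ≤ ((2 ^ j : ℕ) : ℝ) →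
  ((2 ^ j : ℕ) : ℝ) * Real.log X ^ D ≤ X → ∀ y : ℕ, y ≤ 2 ^ j →
    |RR m y - sing m * y| ≤ ((2 ^ j : ℕ) : ℝ) / Real.log X ^ V

open Classical in
/-- **The exceptional set.** -/
theorem exc (e A V : ℕ) (he : 5 ≤ e) : ∃ D : ℕ, ∃ X₀ : ℕ, ∀ X : ℕ, X₀ ≤ X →
    (((Icc 1 X).filter (fun m : ℕ => 2 ∣ m ∧ (X : ℝ) / Real.log X ≤ m ∧ ¬ GoodS e D V X m)).card : ℝ) ≤
      X / Real.log X ^ A := by
  obtain ⟨A'', hA''⟩ : ∃ A'', A'' = A + 3 * V + 9 := ⟨_, rfl⟩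
  obtain ⟨E₀, D₀, hms⟩ := ms e A'' he
  obtain ⟨E1, hE1⟩ : ∃ E1, E1 = E₀ + V + 6 := ⟨_, rfl⟩
  obtain ⟨X1, h1⟩ := hms (E1 + 1)
  obtain ⟨X2, h2⟩ := det e V E1 (by omega) (by omega)
  obtain ⟨X3, h3⟩ := ev_L' 100
  refine ⟨D₀ + 2, X1 + X2 + X3 + 4, fun X hX => ?_⟩
  have hL := h3 X (by omega)
  have hms' := h1 X (by omega)
  have hdet := h2 X (by omega)
  have hnl := natlog_le X (by omega)
  have hX0 : (0 : ℝ) < X := by exact_mod_cast (by omega : 0 < X)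
  have hGd : ∀ m, ¬ GoodS e (D₀ + 2) V X m → ∃ j : ℕ, (X : ℝ) ^ (1 / 4 + 3 / e : ℝ) ≤ ((2 ^ j : ℕ) : ℝ) ∧
      ((2 ^ j : ℕ) : ℝ) * Real.log X ^ (D₀ + 2) ≤ X ∧ ∃ y : ℕ, y ≤ 2 ^ j ∧
      ¬ |∑ n ∈ Icc 1 y, ArithmeticFunction.vonMangoldt n * lamI ((m : ℤ) - n) - sing m * y| ≤ ((2 ^ j : ℕ) : ℝ) / Real.log X ^ V := by
    intro m hm
    unfold GoodS RR at hm
    push Not at hm
    obtain ⟨j, h1, h2, y, h3, h4⟩ := hm
    exact ⟨j, h1, h2, y, h3, not_le.2 h4⟩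
  obtain ⟨L, hLd⟩ : ∃ L, L = Real.log (X : ℝ) := ⟨_, rfl⟩
  rw [← hLd] at hL hms' hdet hnl hGd ⊢
  have hL1 : 1 ≤ L := by linarith
  have hL0 : 0 < L := by linarith
  -- the parameters
  obtain ⟨z, hz⟩ : ∃ z, z = ⌈L ^ E1⌉₊ := ⟨_, rfl⟩
  have hz1 : L ^ E1 ≤ z := by rw [hz]; exact Nat.le_ceil _
  have hz2 : (z : ℝ) ≤ L ^ (E1 + 1) := by
    have e1 := (Nat.ceil_lt_add_one (show 0 ≤ L ^ E1 by positivity)).le
    rw [← hz] at e1
    have e2 : (1 : ℝ) ≤ L ^ E1 := one_le_pow₀ hL1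
    rw [pow_succ]
    nlinarith
  obtain ⟨T, hT⟩ : ∃ T, T = ⌈L ^ (V + 3)⌉₊ := ⟨_, rfl⟩
  have hT1 : L ^ (V + 3) ≤ T := by rw [hT]; exact Nat.le_ceil _
  have hT3 : (1 : ℝ) ≤ L ^ (V + 3) := one_le_pow₀ hL1
  have hT2 : (T : ℝ) ≤ 2 * L ^ (V + 3) := by
    have e1 := (Nat.ceil_lt_add_one (show 0 ≤ L ^ (V + 3) by positivity)).le
    rw [← hT] at e1
    linarith
  have hz0 : L ^ E₀ ≤ z := (pow_le_pow_right₀ hL1 (by omega)).trans hz1
  -- the bad sets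
  obtain ⟨Bd, hBd⟩ : ∃ Bd : ℕ → ℕ → Finset ℕ, Bd = fun j i => (Icc 1 X).filter (fun m : ℕ =>
    ((2 ^ j : ℕ) : ℝ) / L ^ (V + 2) < |∑ n ∈ Icc 1 (min (i * (2 ^ j / T + 1)) (2 ^ j)), ArithmeticFunction.vonMangoldt n *
        Ed z ((m : ℤ) - n)|) := ⟨_, rfl⟩
  obtain ⟨J, hJ⟩ : ∃ J : Finset ℕ, J = (range (Nat.log 2 X + 1)).filter (fun j =>
    (X : ℝ) ^ (1 / 4 + 3 / e : ℝ) ≤ ((2 ^ j : ℕ) : ℝ) ∧ ((2 ^ j : ℕ) : ℝ) * L ^ (D₀ + 2) ≤ X) := ⟨_, rfl⟩
  have hsub : (Icc 1 X).filter (fun m : ℕ => 2 ∣ m ∧ (X : ℝ) / L ≤ m ∧ ¬ GoodS e (D₀ + 2) V X m) ⊆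
      J.biUnion (fun j => (range (T + 1)).biUnion (fun i => Bd j i)) := by
    intro m hm
    rw [mem_filter, mem_Icc] at hm
    obtain ⟨⟨hm1, hmX⟩, h2m, hmL, hnG⟩ := hm
    obtain ⟨j, hj1, hj2, y, hy, hne⟩ := hGd m hnG
    have hPm : 2 ^ j < m := by
      have e1 : ((2 ^ j : ℕ) : ℝ) * L ^ 2 ≤ X := by
        refine le_trans ?_ hj2
        apply mul_le_mul_of_nonneg_left _ (Nat.cast_nonneg _)
        exact pow_le_pow_right₀ hL1 (by omega)
      have e2 : (X : ℝ) ≤ m * L := by rwa [div_le_iff₀ hL0] at hmL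
      have e3 : ((2 ^ j : ℕ) : ℝ) < m := by
        by_contra hcon
        push Not at hcon
        have hm0 : (0 : ℝ) < m := by exact_mod_cast hm1
        have : (m : ℝ) * L < ((2 ^ j : ℕ) : ℝ) * L ^ 2 := by
          have e4 : (m : ℝ) * L < m * L ^ 2 := by
            apply mul_lt_mul_of_pos_left _ hm0
            nlinarith
          exact e4.trans_le (mul_le_mul_of_nonneg_right hcon (by positivity))
        linarith
      exact_mod_cast e3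
    rw [mem_biUnion]
    refine ⟨j, ?_, ?_⟩
    · rw [hJ, mem_filter, mem_range]
      refine ⟨?_, hj1, hj2⟩
      have : 2 ^ j ≤ X := by omega
      have := Nat.le_log_of_pow_le (by norm_num : 1 < 2) this
      omega
    · by_contra hcon
      apply hne
      apply hdet m hmX h2m (by omega) z hz1 hz2 T hT1 (2 ^ j) hj1 hPm _ y hy
      intro i hi
      by_contra hc2
      apply hcon
      rw [mem_biUnion]
      refine ⟨i, hi, ?_⟩
      rw [hBd]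
      simp only
      rw [mem_filter, mem_Icc]
      exact ⟨⟨hm1, hmX⟩, not_le.1 hc2⟩
  have hcard : ∀ j ∈ J, ∀ i ∈ range (T + 1), ((Bd j i).card : ℝ) ≤ X / L ^ (A + V + 5) := by
    intro j hj i hi
    rw [hJ, mem_filter] at hj
    obtain ⟨_, hj1, hj2⟩ := hj
    have hP0 : (0 : ℝ) < ((2 ^ j : ℕ) : ℝ) := by positivity
    have e1 := hms' z hz0 hz2 (2 ^ j) hj1 (by
      refine le_trans ?_ hj2
      apply mul_le_mul_of_nonneg_left _ (Nat.cast_nonneg _)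
      exact pow_le_pow_right₀ hL1 (by omega)) 0 (min (i * (2 ^ j / T + 1)) (2 ^ j)) (Nat.zero_le _) (min_le_right _ _)
    have e2 : ((Bd j i).card : ℝ) * (((2 ^ j : ℕ) : ℝ) / L ^ (V + 2)) ^ 2 ≤ X * (((2 ^ j : ℕ) : ℝ)) ^ 2 / L ^ A'' := by
      refine le_trans ?_ e1
      rw [← nsmul_eq_mul]
      refine le_trans (card_nsmul_le_sum (Bd j i) (fun N : ℕ => (∑ m ∈ Ioc 0 (min (i * (2 ^ j / T + 1)) (2 ^ j)),
        ArithmeticFunction.vonMangoldt m * Ed z ((N : ℤ) - m)) ^ 2) _ ?_) ?_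
      · intro N hN
        rw [hBd] at hN
        simp only [mem_filter] at hN
        rw [← sq_abs (∑ m ∈ Ioc 0 (min (i * (2 ^ j / T + 1)) (2 ^ j)), ArithmeticFunction.vonMangoldt m * Ed z ((N : ℤ) - m))]
        apply pow_le_pow_left₀ (by positivity)
        have : Ioc 0 (min (i * (2 ^ j / T + 1)) (2 ^ j)) = Icc 1 (min (i * (2 ^ j / T + 1)) (2 ^ j)) := by
          ext n
          rw [mem_Ioc, mem_Icc]
          omega
        rw [this]
        exact hN.2.le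
      · apply sum_le_sum_of_subset_of_nonneg
        · intro N hN
          rw [hBd] at hN
          simp only [mem_filter] at hN
          exact hN.1
        · intro N _ _
          positivity
    have e3 : X * (((2 ^ j : ℕ) : ℝ)) ^ 2 / L ^ A'' = (X / L ^ (A + V + 5)) * (((2 ^ j : ℕ) : ℝ) / L ^ (V + 2)) ^ 2 := by
      rw [hA'', div_pow, ← pow_mul, div_mul_div_comm, ← pow_add]
      congr 2
      ring
    rw [e3] at e2
    exact le_of_mul_le_mul_right e2 (by positivity)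
  have h9 : (((Icc 1 X).filter (fun m : ℕ => 2 ∣ m ∧ (X : ℝ) / L ≤ m ∧ ¬ GoodS e (D₀ + 2) V X m)).card : ℝ) ≤
      ∑ j ∈ J, ∑ i ∈ range (T + 1), X / L ^ (A + V + 5) := by
    calc (((Icc 1 X).filter (fun m : ℕ => 2 ∣ m ∧ (X : ℝ) / L ≤ m ∧ ¬ GoodS e (D₀ + 2) V X m)).card : ℝ)
        ≤ ((J.biUnion (fun j => (range (T + 1)).biUnion (fun i => Bd j i))).card : ℝ) := by
          exact_mod_cast card_le_card hsub
      _ ≤ ∑ j ∈ J, (((range (T + 1)).biUnion (fun i => Bd j i)).card : ℝ) := by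
          exact_mod_cast card_biUnion_le
      _ ≤ ∑ j ∈ J, ∑ i ∈ range (T + 1), ((Bd j i).card : ℝ) := by
          apply sum_le_sum
          intro j _
          exact_mod_cast card_biUnion_le
      _ ≤ _ := sum_le_sum fun j hj => sum_le_sum fun i hi => hcard j hj i hi
  refine h9.trans ?_
  rw [sum_const, sum_const, card_range, nsmul_eq_mul, nsmul_eq_mul]
  push_cast
  have hJc : (J.card : ℝ) ≤ 3 * L := by
    have : J.card ≤ Nat.log 2 X + 1 := by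
      rw [hJ]
      refine (card_filter_le _ _).trans ?_
      rw [card_range]
    have : (J.card : ℝ) ≤ (Nat.log 2 X : ℝ) + 1 := by exact_mod_cast this
    linarith
  calc (J.card : ℝ) * (((T : ℝ) + 1) * (X / L ^ (A + V + 5)))
      ≤ (3 * L) * ((3 * L ^ (V + 3)) * (X / L ^ (A + V + 5))) := by
        gcongr
        linarith
    _ = 9 / L * (X / L ^ A) := by
        field_simp
        ring
    _ ≤ 1 * (X / L ^ A) := by
        apply mul_le_mul_of_nonneg_right _ (by positivity)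
        rw [div_le_one hL0]
        linarith
    _ = X / L ^ A := one_mul _

end Pool.Agent.H561.C4
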