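import Pool.Agent.H561.C4.B6
import Pool.Agent.H561.CM.A8

set_option autoImplicit false

/-! Prime powers. -/

namespace Pool.Agent.H561.C4

open Finset
open Pool.Agent.H561.CM (RR)
open Pool.Agent.H373R2.T7
open Pool.Agent.W93.GB
open Pool.Agent.W93.PG (cnt wn lam_sub)
open Pool.Agent.H560R3.GB (sing)
open Pool.Agent.helper24_UT (Ed)

/-- few prime powers `m - n` at all scales -/
def GoodP (e D V X m : ℕ) : Prop := ∀ j : ℕ, (X : ℝ) ^ (1 / 4 + 3 / e : ℝ) ≤ ((2 ^ j : ℕ) : ℝ) →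
  ((2 ^ j : ℕ) : ℝ) * Real.log X ^ D ≤ X → ∑ n ∈ Icc 1 (2 ^ j), pp (m - n) ≤ ((2 ^ j : ℕ) : ℝ) / Real.log X ^ V

open Classical in
theorem excP (e A V D : ℕ) : ∃ X₀ : ℕ, ∀ X : ℕ, X₀ ≤ X →
    (((Icc 1 X).filter (fun m : ℕ => ¬ GoodP e D V X m)).card : ℝ) ≤ X / Real.log X ^ A := by
  obtain ⟨X3, h3⟩ := ev_L' 100
  obtain ⟨X4, h4⟩ := ev_log' (V + A + 3) 1
  refine ⟨X3 + X4 + 4, fun X hX => ?_⟩
  have hL := h3 X (by omega)
  have a4 := h4 X (by omega)
  have hnl := natlog_le X (by omega)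
  have hpp := sum_pp X (by omega)
  have hX0 : (0 : ℝ) < X := by exact_mod_cast (by omega : 0 < X)
  have hX1 : (1 : ℝ) ≤ X := by exact_mod_cast (by omega : 1 ≤ X)
  have hGd : ∀ m, ¬ GoodP e D V X m → ∃ j : ℕ, (X : ℝ) ^ (1 / 4 + 3 / e : ℝ) ≤ ((2 ^ j : ℕ) : ℝ) ∧
      ((2 ^ j : ℕ) : ℝ) * Real.log X ^ D ≤ X ∧ ((2 ^ j : ℕ) : ℝ) / Real.log X ^ V < ∑ n ∈ Icc 1 (2 ^ j), pp (m - n) := by
    intro m hm
    unfold GoodP at hm
    push Not at hm
    exact hm
  obtain ⟨L, hLd⟩ : ∃ L, L = Real.log (X : ℝ) := ⟨_, rfl⟩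
  rw [← hLd] at hL a4 hnl hpp hGd ⊢
  rw [one_mul] at a4
  have hL1 : 1 ≤ L := by linarith
  have hL0 : 0 < L := by linarith
  have hss : √(X : ℝ) * √(X : ℝ) = X := Real.mul_self_sqrt hX0.le
  have hs0 : 0 < √(X : ℝ) := Real.sqrt_pos.2 hX0
  obtain ⟨Bd, hBd⟩ : ∃ Bd : ℕ → Finset ℕ, Bd = fun j => (Icc 1 X).filter (fun m : ℕ =>
    ((2 ^ j : ℕ) : ℝ) / L ^ V < ∑ n ∈ Icc 1 (2 ^ j), pp (m - n)) := ⟨_, rfl⟩
  have hsub : (Icc 1 X).filter (fun m : ℕ => ¬ GoodP e D V X m) ⊆ (range (Nat.log 2 X + 1)).biUnion Bd := by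
    intro m hm
    rw [mem_filter, mem_Icc] at hm
    obtain ⟨⟨hm1, hmX⟩, hnG⟩ := hm
    obtain ⟨j, hj1, hj2, hj3⟩ := hGd m hnG
    rw [mem_biUnion]
    refine ⟨j, ?_, ?_⟩
    · rw [mem_range]
      have : ((2 ^ j : ℕ) : ℝ) ≤ X := by
        refine le_trans ?_ hj2
        exact le_mul_of_one_le_right (Nat.cast_nonneg _) (one_le_pow₀ hL1)
      have : 2 ^ j ≤ X := by exact_mod_cast this
      have := Nat.le_log_of_pow_le (by norm_num : 1 < 2) this
      omega
    · rw [hBd]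
      simp only [mem_filter, mem_Icc]
      exact ⟨⟨hm1, hmX⟩, hj3⟩
  have hcard : ∀ j ∈ range (Nat.log 2 X + 1), ((Bd j).card : ℝ) ≤ 2 * √(X : ℝ) * L ^ (V + 1) := by
    intro j _
    have hP0 : (0 : ℝ) < ((2 ^ j : ℕ) : ℝ) := by positivity
    have e2 : ((Bd j).card : ℝ) * (((2 ^ j : ℕ) : ℝ) / L ^ V) ≤ ((2 ^ j : ℕ) : ℝ) * (2 * √(X : ℝ) * L) := by
      rw [← nsmul_eq_mul]
      refine le_trans (card_nsmul_le_sum (Bd j) (fun m : ℕ => ∑ n ∈ Icc 1 (2 ^ j), pp (m - n)) _ ?_) ?_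
      · intro m hm
        rw [hBd] at hm
        simp only [mem_filter] at hm
        exact hm.2.le
      · calc ∑ m ∈ Bd j, ∑ n ∈ Icc 1 (2 ^ j), pp (m - n) ≤ ∑ m ∈ Icc 1 X, ∑ n ∈ Icc 1 (2 ^ j), pp (m - n) := by
              apply sum_le_sum_of_subset_of_nonneg
              · intro N hN
                rw [hBd] at hN
                simp only [mem_filter] at hN
                exact hN.1
              · intro m _ _
                exact sum_nonneg fun n _ => pp_nonneg _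
          _ = ∑ n ∈ Icc 1 (2 ^ j), ∑ m ∈ Icc 1 X, pp (m - n) := sum_comm
          _ ≤ ∑ n ∈ Icc 1 (2 ^ j), 2 * √(X : ℝ) * L := by
              apply sum_le_sum
              intro n hn
              refine le_trans ?_ hpp
              have hpp0 : pp 0 = 0 := by
                unfold pp lamP
                simp
              have e3 : ∑ m ∈ Icc 1 X, pp (m - n) = ∑ m ∈ (Icc 1 X).filter (fun m => n < m), pp (m - n) := by
                rw [sum_filter]
                apply sum_congr rfl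
                intro m _
                split_ifs with h
                · rfl
                · rw [Nat.sub_eq_zero_of_le (not_lt.1 h), hpp0]
              rw [e3]
              have e4 : ∑ m ∈ (Icc 1 X).filter (fun m => n < m), pp (m - n) =
                  ∑ t ∈ ((Icc 1 X).filter (fun m => n < m)).image (fun m => m - n), pp t := by
                rw [sum_image]
                intro a ha b hb hab
                rw [mem_coe, mem_filter] at ha hb
                simp only at hab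
                omega
              rw [e4]
              apply sum_le_sum_of_subset_of_nonneg
              · intro t ht
                rw [mem_image] at ht
                obtain ⟨m, hm, rfl⟩ := ht
                rw [mem_filter, mem_Icc] at hm
                rw [mem_Icc]
                omega
              · intro t _ _
                exact pp_nonneg t
          _ = ((2 ^ j : ℕ) : ℝ) * (2 * √(X : ℝ) * L) := by
              rw [sum_const, Nat.card_Icc, nsmul_eq_mul, Nat.add_sub_cancel]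
    have e3 : ((2 ^ j : ℕ) : ℝ) * (2 * √(X : ℝ) * L) = (2 * √(X : ℝ) * L ^ (V + 1)) * (((2 ^ j : ℕ) : ℝ) / L ^ V) := by
      rw [pow_succ]
      field_simp
    rw [e3] at e2
    exact le_of_mul_le_mul_right e2 (by positivity)
  have h9 : (((Icc 1 X).filter (fun m : ℕ => ¬ GoodP e D V X m)).card : ℝ) ≤
      ∑ j ∈ range (Nat.log 2 X + 1), (2 * √(X : ℝ) * L ^ (V + 1)) := by
    calc (((Icc 1 X).filter (fun m : ℕ => ¬ GoodP e D V X m)).card : ℝ)
        ≤ (((range (Nat.log 2 X + 1)).biUnion Bd).card : ℝ) := by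
          exact_mod_cast card_le_card hsub
      _ ≤ ∑ j ∈ range (Nat.log 2 X + 1), ((Bd j).card : ℝ) := by
          exact_mod_cast card_biUnion_le
      _ ≤ _ := sum_le_sum fun j hj => hcard j hj
  refine h9.trans ?_
  rw [sum_const, card_range, nsmul_eq_mul, le_div_iff₀ (by positivity)]
  push_cast
  calc ((Nat.log 2 X : ℝ) + 1) * (2 * √(X : ℝ) * L ^ (V + 1)) * L ^ A
      ≤ (3 * L) * (2 * √(X : ℝ) * L ^ (V + 1)) * L ^ A := by
        gcongr
        linarith
    _ = 6 * √(X : ℝ) * L ^ (V + A + 2) := by ring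
    _ ≤ L * √(X : ℝ) * L ^ (V + A + 2) := by
        gcongr
        linarith
    _ = √(X : ℝ) * L ^ (V + A + 3) := by ring
    _ ≤ √(X : ℝ) * √(X : ℝ) := mul_le_mul_of_nonneg_left a4 hs0.le
    _ = X := hss

end Pool.Agent.H561.C4
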