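import Pool.Agent.H561.C4.B7

set_option autoImplicit false

/-! From the weighted numbers to the numbers of the pairs, all windows below `m / (log m) ^ D`. -/

namespace Pool.Agent.H561.C4

open Finset
open Pool.Agent.H561.CM (RR root4 ev_ll wn_eq wn_le_cnt cnt_le_wn)
open Pool.Agent.H373R2.T7
open Pool.Agent.H560R3.GB (sing)
open Pool.Agent.W93.GB
open Pool.Agent.W93.PG (cnt wn lam_sub)
open Pool.Agent.R460.GH (dist)
open Pool.Agent.helper24_UT (Ed)

/-- the numbers of the pairs in all windows `(u, v]` with `m ^ (1 / 4 + 4 / e) ≤ v ≤ m / (log m) ^ D` are as predicted -/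
def HoldsS (ε : ℝ) (e W D m : ℕ) : Prop := ∀ u v : ℝ, 0 ≤ u → (m : ℝ) ^ (1 / 4 + 4 / e : ℝ) ≤ v →
  v * Real.log m ^ D ≤ m → v / Real.log m ^ W ≤ v - u →
  |(dist m u v : ℝ) - sing m * (v - u) / (Real.log v * Real.log m)| ≤
    ε * (sing m * (v - u) / (Real.log v * Real.log m))

theorem det_cnt (ε : ℝ) (hε : 0 < ε) (hε1 : ε ≤ 1 / 2) (e W D : ℕ) (he : 1 ≤ e) : ∃ m₀ : ℕ, ∀ m : ℕ, m₀ ≤ m → ∀ X : ℕ, m ≤ X →
    X ≤ 2 * m → GoodS e D (W + 4) X m → GoodP e D (W + 4) X m → HoldsS ε e W (D + 1) m := by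
  obtain ⟨m1, h1⟩ := ev_L' (100 + 100 / ε + 2 ^ (D + 2))
  have he0 : (0 : ℝ) < e := by exact_mod_cast he
  obtain ⟨m2, h2⟩ := Filter.eventually_atTop.1 (Pool.Agent.helper24_UT.Sil2.ev_pow (10 + 2 * W) (1 / 4 + 4 / e) 16 (by positivity))
  obtain ⟨m3, h3⟩ := ev_ll (W + 5) (ε / 32) (by positivity)
  obtain ⟨m4, h4⟩ := Filter.eventually_atTop.1 (Pool.Agent.helper24_UT.Sil2.ev_pow 0 (1 / e) 16 (by positivity))
  refine ⟨m1 + m2 + m3 + m4 + 16, fun m hm X hmX hX2 hS hP u v hu hv hvm huv => ?_⟩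
  have hL := h1 m (by omega)
  have a2 := h2 m (by omega)
  have a3 := h3 m (by omega)
  have a4 := h4 m (by omega)
  have hm16 : 16 ≤ m := by omega
  obtain ⟨s, hs1, hss, hs4, hlogs⟩ := root4 m hm16
  have hmr : (16 : ℝ) ≤ m := by exact_mod_cast hm16
  have hm0 : (0 : ℝ) < m := by linarith
  have hXr : (m : ℝ) ≤ X := by exact_mod_cast hmX
  have hX2r : (X : ℝ) ≤ 2 * m := by exact_mod_cast hX2
  have hX0 : (0 : ℝ) < X := by linarith
  have hsing := one_le_sing m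
  -- the logarithms
  have hLX1 : Real.log m ≤ Real.log X := Real.log_le_log hm0 hXr
  have hLX2 : Real.log X ≤ Real.log m + 1 := by
    have e1 : Real.log X ≤ Real.log (2 * m) := Real.log_le_log hX0 hX2r
    rw [Real.log_mul (by norm_num) hm0.ne'] at e1
    have := Real.log_two_lt_d9
    linarith
  obtain ⟨S, hSd⟩ : ∃ S, S = sing m := ⟨_, rfl⟩
  obtain ⟨ℓ, hℓ⟩ : ∃ ℓ, ℓ = Real.log (m : ℝ) := ⟨_, rfl⟩
  obtain ⟨L, hLd⟩ : ∃ L, L = Real.log (X : ℝ) := ⟨_, rfl⟩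
  rw [← hSd] at hsing
  rw [← hℓ] at hL a2 a3 hlogs hLX1 hLX2 hvm huv
  rw [pow_zero, mul_one] at a4
  rw [← hLd] at hLX1 hLX2
  rw [← hSd, ← hℓ]
  have h100ε : 0 < 100 / ε := by positivity
  have h2D : (0 : ℝ) < 2 ^ (D + 2) := by positivity
  have hℓ100 : 100 ≤ ℓ := by linarith
  have hℓε : 100 / ε ≤ ℓ := by linarith
  have hℓD : 2 ^ (D + 2) ≤ ℓ := by linarith
  have hℓ1 : 1 ≤ ℓ := by linarith
  have hℓ0 : 0 < ℓ := by linarith
  have hL0 : 0 < L := by linarith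
  have hL2ℓ : L ≤ 2 * ℓ := by linarith
  have hs0 : 0 < s := by linarith
  have hW0 : 0 < ℓ ^ W := by positivity
  have hW1 : 1 ≤ ℓ ^ W := one_le_pow₀ hℓ1
  -- the size of v
  have hvbig : 16 * ℓ ^ (10 + 2 * W) ≤ v := a2.trans hv
  have hvs : s ≤ v := by
    refine le_trans ?_ hv
    have hs : s = (m : ℝ) ^ (1 / 4 : ℝ) := by
      rw [← hs4, ← Real.rpow_natCast, ← Real.rpow_mul hs0.le]
      norm_num
    rw [hs]
    apply Real.rpow_le_rpow_of_exponent_le (by linarith)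
    have : (0 : ℝ) ≤ 4 / e := by positivity
    linarith
  have hp1 : 1 ≤ ℓ ^ (10 + 2 * W) := one_le_pow₀ hℓ1
  have hv16 : 16 ≤ v := by linarith
  have hv0 : 0 < v := by linarith
  have hlogv : ℓ / 4 ≤ Real.log v := by
    rw [← hlogs]
    exact Real.log_le_log hs0 hvs
  have hlogv0 : 0 < Real.log v := by linarith
  have hvm1 : v * ℓ ≤ m := by
    refine le_trans ?_ hvm
    apply mul_le_mul_of_nonneg_left _ hv0.le
    exact le_self_pow₀ hℓ1 (by omega)
  have hvmm : 100 * v ≤ m := by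
    have : v * 100 ≤ v * ℓ := mul_le_mul_of_nonneg_left hℓ100 hv0.le
    linarith
  have hlogv2 : Real.log v ≤ ℓ := by
    rw [hℓ]
    apply Real.log_le_log hv0
    linarith
  obtain ⟨h, hh⟩ : ∃ h, h = v - u := ⟨_, rfl⟩
  rw [← hh] at huv ⊢
  have hhv : v ≤ h * ℓ ^ W := by rwa [div_le_iff₀ hW0] at huv
  have hhbig : 16 * ℓ ^ (10 + W) ≤ h := by
    have e1 : 16 * ℓ ^ (10 + W) * ℓ ^ W ≤ h * ℓ ^ W := by
      calc 16 * ℓ ^ (10 + W) * ℓ ^ W = 16 * ℓ ^ (10 + 2 * W) := by ring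
        _ ≤ v := hvbig
        _ ≤ _ := hhv
    exact le_of_mul_le_mul_right e1 hW0
  have hh0 : 0 < h := lt_of_lt_of_le (by positivity) hhbig
  have hh4 : ℓ ^ 4 ≤ h := by
    refine le_trans ?_ hhbig
    have : ℓ ^ 4 ≤ ℓ ^ (10 + W) := pow_le_pow_right₀ hℓ1 (by omega)
    have : 0 < ℓ ^ (10 + W) := by positivity
    linarith
  -- the natural end points
  obtain ⟨a, ha⟩ : ∃ a, a = ⌊u⌋₊ := ⟨_, rfl⟩
  obtain ⟨b, hb⟩ : ∃ b, b = ⌊v⌋₊ := ⟨_, rfl⟩
  have ha1 : (a : ℝ) ≤ u := by rw [ha]; exact Nat.floor_le hu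
  have ha2 : u < a + 1 := by rw [ha]; exact Nat.lt_floor_add_one u
  have hb1 : (b : ℝ) ≤ v := by rw [hb]; exact Nat.floor_le hv0.le
  have hb2 : v < b + 1 := by rw [hb]; exact Nat.lt_floor_add_one v
  have hab : a ≤ b := by
    rw [ha, hb]
    apply Nat.floor_le_floor
    linarith
  have hbpos : 1 ≤ b := by
    have : (0 : ℝ) < b := by linarith
    exact_mod_cast this
  -- the scale
  obtain ⟨j, hj⟩ : ∃ j, j = Nat.clog 2 ⌈v⌉₊ := ⟨_, rfl⟩
  obtain ⟨P, hPd⟩ : ∃ P, P = 2 ^ j := ⟨_, rfl⟩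
  have hP1 : ⌈v⌉₊ ≤ P := by rw [hPd, hj]; exact Nat.le_pow_clog (by norm_num) _
  have hP1r : v ≤ P := (Nat.le_ceil v).trans (by exact_mod_cast hP1)
  have hP2r : (P : ℝ) ≤ 4 * v := by
    have hc2 : 1 < ⌈v⌉₊ := by
      have : (1 : ℝ) < ⌈v⌉₊ := lt_of_lt_of_le (by linarith) (Nat.le_ceil v)
      exact_mod_cast this
    have e1 := Nat.pow_pred_clog_lt_self (b := 2) (by norm_num) hc2
    rw [← hj] at e1
    have hj1 : 1 ≤ j := by
      rw [hj]
      exact Nat.clog_pos (by norm_num) (by omega)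
    have e2 : P = 2 * 2 ^ j.pred := by
      rw [hPd, Nat.pred_eq_sub_one, ← pow_succ']
      congr 1
      omega
    have e3 : ((2 ^ j.pred : ℕ) : ℝ) ≤ ⌈v⌉₊ := by exact_mod_cast e1.le
    have e4 := (Nat.ceil_lt_add_one hv0.le).le
    rw [e2]
    push_cast at e3 ⊢
    linarith
  have hPm : (P : ℝ) ≤ m := by linarith
  have hPmn : P ≤ m := by exact_mod_cast hPm
  have hP0 : (0 : ℝ) < P := by linarith
  have hbP : b ≤ P := by
    have : (b : ℝ) ≤ P := hb1.trans hP1r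
    exact_mod_cast this
  have hc1 : (X : ℝ) ^ (1 / 4 + 3 / e : ℝ) ≤ ((2 ^ j : ℕ) : ℝ) := by
    rw [← hPd]
    refine le_trans ?_ hP1r
    have hmpos : (0 : ℝ) < (m : ℝ) ^ (1 / 4 + 3 / e : ℝ) := by positivity
    have hme : (0 : ℝ) < (m : ℝ) ^ (1 / e : ℝ) := by positivity
    have e1 : (X : ℝ) ^ (1 / 4 + 3 / e : ℝ) ≤ (2 : ℝ) ^ (1 / 4 + 3 / e : ℝ) * (m : ℝ) ^ (1 / 4 + 3 / e : ℝ) := by
      rw [← Real.mul_rpow (by norm_num) hm0.le]
      exact Real.rpow_le_rpow hX0.le hX2r (by positivity)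
    have he1 : (1 : ℝ) ≤ e := by exact_mod_cast he
    have e2 : (2 : ℝ) ^ (1 / 4 + 3 / e : ℝ) ≤ 16 := by
      calc (2 : ℝ) ^ (1 / 4 + 3 / e : ℝ) ≤ 2 ^ (4 : ℝ) := by
            apply Real.rpow_le_rpow_of_exponent_le (by norm_num)
            have : (3 : ℝ) / e ≤ 3 := div_le_self (by norm_num) he1
            linarith
        _ = 16 := by norm_num
    have e3 : (m : ℝ) ^ (1 / 4 + 4 / e : ℝ) = (m : ℝ) ^ (1 / 4 + 3 / e : ℝ) * (m : ℝ) ^ (1 / e : ℝ) := by
      rw [← Real.rpow_add hm0]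
      congr 1
      ring
    refine le_trans ?_ hv
    rw [e3]
    calc (X : ℝ) ^ (1 / 4 + 3 / e : ℝ) ≤ (2 : ℝ) ^ (1 / 4 + 3 / e : ℝ) * (m : ℝ) ^ (1 / 4 + 3 / e : ℝ) := e1
      _ ≤ (m : ℝ) ^ (1 / e : ℝ) * (m : ℝ) ^ (1 / 4 + 3 / e : ℝ) := by
          apply mul_le_mul_of_nonneg_right _ hmpos.le
          exact e2.trans a4
      _ = _ := by ring
  have hc2 : ((2 ^ j : ℕ) : ℝ) * Real.log X ^ D ≤ X := by
    rw [← hPd, ← hLd]
    calc (P : ℝ) * L ^ D ≤ (4 * v) * (2 * ℓ) ^ D := by gcongr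
      _ = v * (2 ^ (D + 2) * ℓ ^ D) := by ring
      _ ≤ v * (ℓ * ℓ ^ D) := by gcongr
      _ = v * ℓ ^ (D + 1) := by ring
      _ ≤ m := hvm
      _ ≤ X := hXr
  have gS := hS j hc1 hc2
  have gP := hP j hc1 hc2
  rw [← hPd, ← hLd] at gS gP
  rw [← hSd] at gS
  -- the error terms
  have hPV : (P : ℝ) / L ^ (W + 4) ≤ 4 * (h / ℓ ^ 4) := by
    calc (P : ℝ) / L ^ (W + 4) ≤ (4 * (h * ℓ ^ W)) / ℓ ^ (W + 4) := by
          have : (P : ℝ) ≤ 4 * (h * ℓ ^ W) := by linarith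
          gcongr
      _ = 4 * (h / ℓ ^ 4) := by
          rw [pow_add]
          field_simp
  have hh4' : 1 ≤ h / ℓ ^ 4 := by rwa [le_div_iff₀ (by positivity), one_mul]
  have hwn1 : |wn m a b - S * h| ≤ 9 * (S * (h / ℓ ^ 4)) := by
    rw [wn_eq m a b hab]
    have e1 := gS b hbP
    have e2 := gS a (hab.trans hbP)
    have e3 : |S * (((b : ℝ) - a) - h)| ≤ S := by
      rw [abs_mul, abs_of_nonneg (by linarith : 0 ≤ S)]
      have : |((b : ℝ) - a) - h| ≤ 1 := by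
        rw [abs_le, hh]
        constructor <;> linarith
      calc S * |((b : ℝ) - a) - h| ≤ S * 1 := mul_le_mul_of_nonneg_left this (by linarith)
        _ = S := mul_one S
    have e4 : RR m b - RR m a - S * h = (RR m b - S * b) - (RR m a - S * a) + S * (((b : ℝ) - a) - h) := by ring
    rw [e4]
    have e5 := abs_add_le ((RR m b - S * b) - (RR m a - S * a)) (S * (((b : ℝ) - a) - h))
    have e6 := abs_sub (RR m b - S * b) (RR m a - S * a)
    have e7 : S ≤ S * (h / ℓ ^ 4) := le_mul_of_one_le_right (by linarith) hh4'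
    have e8 : h / ℓ ^ 4 ≤ S * (h / ℓ ^ 4) := le_mul_of_one_le_left (by positivity) hsing
    linarith
  rw [abs_le] at hwn1
  -- the constant
  obtain ⟨M, hM⟩ : ∃ M, M = S * h / (Real.log v * ℓ) := ⟨_, rfl⟩
  rw [← hM]
  have hlv0 : 0 < Real.log v * ℓ := by positivity
  have hMeq : M * (Real.log v * ℓ) = S * h := by
    rw [hM]
    field_simp
  have hSh0 : 0 < S * h := by positivity
  have hM0 : 0 < M := by rw [hM]; positivity
  have hML : S * h / ℓ ^ 2 ≤ M := by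
    rw [hM]
    apply div_le_div_of_nonneg_left hSh0.le hlv0
    rw [sq]
    exact mul_le_mul_of_nonneg_right hlogv2 hℓ0.le
  have hSh4 : S * (h / ℓ ^ 4) ≤ M / ℓ ^ 2 := by
    calc S * (h / ℓ ^ 4) = (S * h / ℓ ^ 2) / ℓ ^ 2 := by field_simp
      _ ≤ M / ℓ ^ 2 := by gcongr
  have hM1 : 1 ≤ M / ℓ ^ 2 := by
    refine le_trans ?_ hSh4
    calc (1 : ℝ) ≤ h / ℓ ^ 4 := hh4'
      _ ≤ S * (h / ℓ ^ 4) := le_mul_of_one_le_left (by positivity) hsing
  -- comparison with dist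
  have hd1 : (cnt m a b : ℝ) ≤ dist m u v + 1 := by
    have := Pool.Agent.R460.GH.cnt_le_dist m u v hu (by linarith)
    rw [← ha, ← hb] at this
    exact_mod_cast this
  have hd2 : (dist m u v : ℝ) ≤ cnt m a b := by
    have := Pool.Agent.R460.GH.dist_le_cnt m u v hu
    rw [← ha, ← hb] at this
    exact_mod_cast this
  have hε100 : 100 ≤ ε * ℓ := by
    rw [div_le_iff₀ hε] at hℓε
    linarith
  have hinv1 : 1 / ℓ ≤ ε / 100 := by
    rw [div_le_div_iff₀ hℓ0 (by norm_num)]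
    linarith
  have hinv2 : 1 / ℓ ^ 2 ≤ ε / 100 := by
    refine le_trans ?_ hinv1
    apply one_div_le_one_div_of_le hℓ0
    exact le_self_pow₀ hℓ1 (by norm_num)
  -- the lower bound
  have hlow : (1 - ε / 2) * M ≤ cnt m a b := by
    have e1 := wn_le_cnt m a b P hbP hPmn hbpos
    rw [← hℓ] at e1
    have e2 : Real.log b ≤ Real.log v := Real.log_le_log (by exact_mod_cast hbpos) hb1
    have e3 : (cnt m a b : ℝ) * (Real.log b * ℓ) ≤ cnt m a b * (Real.log v * ℓ) := by gcongr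
    have e4 : Real.log P ≤ ℓ := by
      rw [hℓ]
      exact Real.log_le_log hP0 hPm
    have e5 : ℓ * (2 * √(P : ℝ) * Real.log P) ≤ S * h / ℓ := by
      have f1 : √(P : ℝ) ≤ 2 * √v := by
        apply Real.sqrt_le_iff.2
        refine ⟨by positivity, ?_⟩
        rw [mul_pow, Real.sq_sqrt hv0.le]
        linarith
      have f2 : 4 * ℓ ^ (5 + W) ≤ √v := by
        apply Real.le_sqrt_of_sq_le
        refine le_trans (le_of_eq ?_) hvbig
        ring
      have hlP : 0 ≤ Real.log P := Real.log_natCast_nonneg P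
      have f3 : √v * √v = v := Real.mul_self_sqrt hv0.le
      calc ℓ * (2 * √(P : ℝ) * Real.log P) ≤ ℓ * (2 * (2 * √v) * ℓ) := by gcongr
        _ = (4 * ℓ ^ (5 + W)) * √v / ℓ ^ (3 + W) := by
            rw [show 5 + W = 2 + (3 + W) by ring, pow_add]
            field_simp
            norm_num
        _ ≤ √v * √v / ℓ ^ (3 + W) := by gcongr
        _ = v / ℓ ^ (3 + W) := by rw [f3]
        _ ≤ h * ℓ ^ W / ℓ ^ (3 + W) := by gcongr
        _ = h / ℓ ^ 3 := by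
            rw [pow_add]
            field_simp
        _ ≤ S * h / ℓ := by
            have g1 : h ≤ S * h := le_mul_of_one_le_left hh0.le hsing
            have g2 : ℓ ≤ ℓ ^ 3 := le_self_pow₀ hℓ1 (by norm_num)
            gcongr
    have e6 : ℓ * ∑ n ∈ Icc 1 P, pp (m - n) ≤ 4 * (S * h / ℓ) := by
      calc ℓ * ∑ n ∈ Icc 1 P, pp (m - n) ≤ ℓ * (4 * (h / ℓ ^ 4)) := mul_le_mul_of_nonneg_left (gP.trans hPV) hℓ0.le
        _ = 4 * (h / ℓ ^ 3) := by field_simp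
        _ ≤ 4 * (S * h / ℓ) := by
            have g1 : h ≤ S * h := le_mul_of_one_le_left hh0.le hsing
            have g2 : ℓ ≤ ℓ ^ 3 := le_self_pow₀ hℓ1 (by norm_num)
            gcongr
    have e7 : 9 * (S * (h / ℓ ^ 4)) ≤ 9 * (S * h / ℓ) := by
      have : S * (h / ℓ ^ 4) ≤ S * h / ℓ := by
        rw [mul_div_assoc]
        have g2 : ℓ ≤ ℓ ^ 4 := le_self_pow₀ hℓ1 (by norm_num)
        gcongr
      linarith
    have e8 : S * h / ℓ = S * h * (1 / ℓ) := by ring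
    have e9 : S * h * (1 / ℓ) ≤ S * h * (ε / 100) := mul_le_mul_of_nonneg_left hinv1 hSh0.le
    have e10 : (1 - ε / 2) * (S * h) ≤ cnt m a b * (Real.log v * ℓ) := by
      have f1 : S * h - 14 * (S * h / ℓ) ≤ cnt m a b * (Real.log v * ℓ) := by
        have := hwn1.1
        linarith
      have f2 : S * h * ε > 0 := by positivity
      rw [e8] at f1
      linarith
    rw [← hMeq] at e10
    have e11 : (1 - ε / 2) * M * (Real.log v * ℓ) ≤ cnt m a b * (Real.log v * ℓ) := by linarith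
    exact le_of_mul_le_mul_right e11 hlv0
  -- the upper bound
  have hupp : (cnt m a b : ℝ) ≤ (1 + ε) * M := by
    obtain ⟨y, hy⟩ : ∃ y, y = ⌊v / ℓ ^ (W + 4)⌋₊ := ⟨_, rfl⟩
    have hvW : 16 * ℓ ^ 6 ≤ v / ℓ ^ (W + 4) := by
      rw [le_div_iff₀ (by positivity)]
      calc 16 * ℓ ^ 6 * ℓ ^ (W + 4) = 16 * ℓ ^ (10 + W) := by ring
        _ ≤ 16 * ℓ ^ (10 + 2 * W) := by
            have : ℓ ^ (10 + W) ≤ ℓ ^ (10 + 2 * W) := pow_le_pow_right₀ hℓ1 (by omega)
            linarith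
        _ ≤ v := hvbig
    have hl6 : 1 ≤ ℓ ^ 6 := one_le_pow₀ hℓ1
    have hy1 : (y : ℝ) ≤ v / ℓ ^ (W + 4) := by rw [hy]; exact Nat.floor_le (by positivity)
    have hy2 : v / ℓ ^ (W + 4) < y + 1 := by rw [hy]; exact Nat.lt_floor_add_one _
    have hy2n : 2 ≤ y := by
      have : (2 : ℝ) ≤ y := by linarith
      exact_mod_cast this
    have hyy : v / ℓ ^ (W + 5) ≤ y := by
      have f1 : v / ℓ ^ (W + 5) = (v / ℓ ^ (W + 4)) / ℓ := by
        rw [show W + 5 = (W + 4) + 1 by ring, pow_succ]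
        field_simp
      have f2 : (v / ℓ ^ (W + 4)) / ℓ ≤ (v / ℓ ^ (W + 4)) / 2 :=
        div_le_div_of_nonneg_left (by positivity) (by norm_num) (by linarith)
      rw [f1]
      linarith
    have hlogy : (1 - ε / 8) * Real.log v ≤ Real.log y := by
      have f1 : Real.log (v / ℓ ^ (W + 5)) ≤ Real.log y := Real.log_le_log (by positivity) hyy
      rw [Real.log_div hv0.ne' (by positivity), Real.log_pow] at f1
      push_cast at f1
      have f2 : ε / 32 * ℓ ≤ ε / 8 * Real.log v := by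
        have := mul_le_mul_of_nonneg_left hlogv (by positivity : 0 ≤ ε / 8)
        linarith
      linarith
    have hlm : (1 - ε / 8) * ℓ ≤ Real.log ((m : ℝ) / 2) := by
      rw [Real.log_div hm0.ne' (by norm_num), ← hℓ]
      have := Real.log_two_lt_d9
      linarith
    have hbm : 2 * b ≤ m := by
      have : 2 * (b : ℝ) ≤ m := by linarith
      exact_mod_cast this
    have e1 := cnt_le_wn m a b y hbm hy2n (by omega)
    obtain ⟨n1, n2⟩ := Pool.Agent.W93.PG.num1 ε hε hε1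
    have hε8 : 0 < 1 - ε / 8 := by linarith
    have hden : (1 - ε / 8) ^ 2 * (Real.log v * ℓ) ≤ Real.log y * Real.log ((m : ℝ) / 2) := by
      calc (1 - ε / 8) ^ 2 * (Real.log v * ℓ) = ((1 - ε / 8) * Real.log v) * ((1 - ε / 8) * ℓ) := by ring
        _ ≤ _ := mul_le_mul hlogy hlm (by positivity) ((by positivity : 0 ≤ (1 - ε / 8) * Real.log v).trans hlogy)
    have hden0 : 0 < (1 - ε / 8) ^ 2 * (Real.log v * ℓ) := by positivity
    have hwnu : wn m a b ≤ (1 + ε / 8) * (S * h) := by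
      have f1 := hwn1.2
      have f2 : 9 * (S * (h / ℓ ^ 4)) ≤ ε / 8 * (S * h) := by
        have g1 : S * (h / ℓ ^ 4) ≤ S * h * (1 / ℓ) := by
          have g2 : ℓ ≤ ℓ ^ 4 := le_self_pow₀ hℓ1 (by norm_num)
          calc S * (h / ℓ ^ 4) ≤ S * (h / ℓ) := by gcongr
            _ = S * h * (1 / ℓ) := by ring
        have g3 : S * h * (1 / ℓ) ≤ S * h * (ε / 100) := mul_le_mul_of_nonneg_left hinv1 hSh0.le
        have g4 : 0 < S * h * ε := by positivity
        linarith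
      linarith
    have e2 : wn m a b / (Real.log y * Real.log ((m : ℝ) / 2)) ≤ (1 + ε / 8) * (1 + ε / 2) * M := by
      have f0 : 0 < Real.log y * Real.log ((m : ℝ) / 2) := lt_of_lt_of_le hden0 hden
      rw [div_le_iff₀ f0]
      calc wn m a b ≤ (1 + ε / 8) * (S * h) := hwnu
        _ = (1 + ε / 8) * (M * (Real.log v * ℓ)) * 1 := by rw [hMeq, mul_one]
        _ ≤ (1 + ε / 8) * (M * (Real.log v * ℓ)) * ((1 + ε / 2) * (1 - ε / 8) ^ 2) := by gcongr
        _ = (1 + ε / 8) * (1 + ε / 2) * M * ((1 - ε / 8) ^ 2 * (Real.log v * ℓ)) := by ring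
        _ ≤ (1 + ε / 8) * (1 + ε / 2) * M * (Real.log y * Real.log ((m : ℝ) / 2)) := by gcongr
    have e3 : (y : ℝ) ≤ ε / 6 * M := by
      have f1 : v / ℓ ^ (W + 4) ≤ h / ℓ ^ 4 := by
        calc v / ℓ ^ (W + 4) ≤ h * ℓ ^ W / ℓ ^ (W + 4) := by gcongr
          _ = h / ℓ ^ 4 := by
              rw [pow_add]
              field_simp
      have f2 : h / ℓ ^ 4 ≤ S * (h / ℓ ^ 4) := le_mul_of_one_le_left (by positivity) hsing
      have f3 : M / ℓ ^ 2 = M * (1 / ℓ ^ 2) := by ring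
      have f4 : M * (1 / ℓ ^ 2) ≤ M * (ε / 100) := mul_le_mul_of_nonneg_left hinv2 hM0.le
      have f5 : 0 < M * ε := by positivity
      linarith
    calc (cnt m a b : ℝ) ≤ y + wn m a b / (Real.log y * Real.log ((m : ℝ) / 2)) := e1
      _ ≤ ε / 6 * M + (1 + ε / 8) * (1 + ε / 2) * M := by linarith
      _ = ((1 + ε / 8) * (1 + ε / 2) + ε / 6) * M := by ring
      _ ≤ (1 + ε) * M := mul_le_mul_of_nonneg_right n2 hM0.le
  have h1M : 1 ≤ ε / 2 * M := by
    have f3 : M / ℓ ^ 2 = M * (1 / ℓ ^ 2) := by ring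
    have f4 : M * (1 / ℓ ^ 2) ≤ M * (ε / 100) := mul_le_mul_of_nonneg_left hinv2 hM0.le
    have f5 : 0 < M * ε := by positivity
    linarith
  rw [abs_le]
  constructor
  · linarith
  · linarith

end Pool.Agent.H561.C4
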