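import Pool.Agent.H561.C4.B8
import Pool.Agent.H561.CM.A10

set_option autoImplicit false

/-! Almost all even numbers have the predicted numbers of pairs in all windows below `m / (log m) ^ D`. -/

namespace Pool.Agent.H561.C4

open Finset
open Pool.Agent.H561.CM (dyadic)
open Pool.Agent.H373R2.T7
open Pool.Agent.H560R3.GB (sing)
open Pool.Agent.W93.GB
open Pool.Agent.R460.GH (dist)
open Pool.Agent.helper24_UT (Ed)

lemma HoldsS_mono (ε ε' : ℝ) (hε : ε' ≤ ε) (e W D m : ℕ) (hm : 1 ≤ m)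
    (h : HoldsS ε' e W D m) : HoldsS ε e W D m := by
  intro u v hu hv hvm huv
  refine (h u v hu hv hvm huv).trans ?_
  have hs := one_le_sing m
  have hL : 0 ≤ Real.log (m : ℝ) := Real.log_natCast_nonneg m
  have hm' : (1 : ℝ) ≤ m := by exact_mod_cast hm
  have hv1 : 1 ≤ v := (Real.one_le_rpow hm' (by positivity)).trans hv
  have h1 : 0 ≤ v - u := (div_nonneg (by linarith) (pow_nonneg hL W)).trans huv
  apply mul_le_mul_of_nonneg_right hε
  apply div_nonneg
  · exact mul_nonneg (by linarith) h1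
  · exact mul_nonneg (Real.log_nonneg hv1) hL

open Classical in
theorem excH (ε : ℝ) (hε : 0 < ε) (e W A : ℕ) (he : 5 ≤ e) : ∃ D : ℕ, ∃ X₀ : ℕ, ∀ X : ℕ, X₀ ≤ X →
    (((Icc 1 X).filter (fun m : ℕ => 2 ∣ m ∧ X ≤ 2 * m ∧ ¬ HoldsS ε e W D m)).card : ℝ) ≤ X / Real.log X ^ A := by
  obtain ⟨D, X1, h1⟩ := exc e (A + 1) (W + 4) he
  obtain ⟨X2, h2⟩ := excP e (A + 1) (W + 4) D
  obtain ⟨m0, h3⟩ := det_cnt (min ε (1 / 2)) (by positivity) (min_le_right _ _) e W D (by omega)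
  obtain ⟨X4, h4⟩ := ev_L' 2
  refine ⟨D + 1, X1 + X2 + 2 * m0 + X4 + 4, fun X hX => ?_⟩
  have hL := h4 X (by omega)
  have a1 := h1 X (by omega)
  have a2 := h2 X (by omega)
  have hX0 : (0 : ℝ) < X := by exact_mod_cast (by omega : 0 < X)
  have hsub : (Icc 1 X).filter (fun m : ℕ => 2 ∣ m ∧ X ≤ 2 * m ∧ ¬ HoldsS ε e W (D + 1) m) ⊆
      (Icc 1 X).filter (fun m : ℕ => 2 ∣ m ∧ (X : ℝ) / Real.log X ≤ m ∧ ¬ GoodS e D (W + 4) X m) ∪
      (Icc 1 X).filter (fun m : ℕ => ¬ GoodP e D (W + 4) X m) := by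
    intro m hm
    rw [mem_filter, mem_Icc] at hm
    obtain ⟨⟨hm1, hmX⟩, h2m, hXm, hnH⟩ := hm
    rw [mem_union, mem_filter, mem_filter, mem_Icc]
    by_cases hP : GoodP e D (W + 4) X m
    · left
      refine ⟨⟨hm1, hmX⟩, h2m, ?_, ?_⟩
      · rw [div_le_iff₀ (by linarith)]
        have e1 : (X : ℝ) ≤ 2 * m := by exact_mod_cast hXm
        have e2 : (m : ℝ) * 2 ≤ m * Real.log X := mul_le_mul_of_nonneg_left hL (Nat.cast_nonneg _)
        linarith
      · intro hS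
        apply hnH
        apply HoldsS_mono ε (min ε (1 / 2)) (min_le_left _ _)
        · omega
        · exact h3 m (by omega) X hmX hXm hS hP
    · right
      exact ⟨⟨hm1, hmX⟩, hP⟩
  have hc : (((Icc 1 X).filter (fun m : ℕ => 2 ∣ m ∧ X ≤ 2 * m ∧ ¬ HoldsS ε e W (D + 1) m)).card : ℝ) ≤
      X / Real.log X ^ (A + 1) + X / Real.log X ^ (A + 1) := by
    refine le_trans ?_ (add_le_add a1 a2)
    exact_mod_cast (card_le_card hsub).trans (card_union_le _ _)
  refine hc.trans ?_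
  have hLA : 0 < Real.log (X : ℝ) ^ A := by
    apply pow_pos
    linarith
  calc (X : ℝ) / Real.log X ^ (A + 1) + X / Real.log X ^ (A + 1) = 2 * X / (Real.log X * Real.log X ^ A) := by
        rw [pow_succ']
        ring
    _ ≤ Real.log X * X / (Real.log X * Real.log X ^ A) := by gcongr
    _ = X / Real.log X ^ A := by
        have : Real.log (X : ℝ) ≠ 0 := by
          intro h
          rw [h] at hL
          linarith
        field_simp

open Classical in
/-- **Almost all even numbers.** -/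
theorem allS (ε : ℝ) (hε : 0 < ε) (e W A : ℕ) (he : 5 ≤ e) : ∃ D : ℕ, ∃ X₀ : ℕ, ∀ X : ℕ, X₀ ≤ X →
    (((Icc 1 X).filter (fun m : ℕ => 2 ∣ m ∧ ¬ HoldsS ε e W D m)).card : ℝ) ≤ X / Real.log X ^ A := by
  obtain ⟨D, X0, h⟩ := excH ε hε e W (A + 1) he
  obtain ⟨X1, h1⟩ := dyadic (fun m : ℕ => 2 ∣ m ∧ ¬ HoldsS ε e W D m) A X0 (by
    intro X hX
    refine le_trans (le_of_eq ?_) (h X hX)
    congr 2
    ext m
    simp only [mem_filter]
    tauto)
  refine ⟨D, X1, fun X hX => ?_⟩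
  refine le_trans (le_of_eq ?_) (h1 X hX)
  congr 2
  ext m
  simp only [mem_filter]

end Pool.Agent.H561.C4
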